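import Mathlib
import Pool.Agent.Helper340_sync.Final

/-! # MP_e1010f_an, Q1: the rigid synchrony conjecture for network periodic orbits

For every network, every admissible `C^1` vector field and every hyperbolic periodic orbit, a
rigid synchrony pattern is balanced.  All definitions are in `Pool.Agent.Helper340_sync.Defs`.

Proof.  (1) Since the multiplier `1` is simple, the perturbed orbit `y_q` of `f + q` satisfies the
Lipschitz estimate `|y_q - y_q'| <= C int |q(y_q') - q'(y_q')| dt` (`Orb.persist`).
(2) The finitely many conditions `y_q(t)_c = y_q(t)_d` and `(f + q)(y_q(t))_c = 0` are closed in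
the space of pairs (perturbation `q`, time `t`); so on some nonempty open set of pairs each of them
holds everywhere or nowhere (`decide_facts`).
(3) If two nodes are equal and moving there, a bump perturbation of small radius at the input state
of the first one acts at time `t` but has a small integral along the orbit; by (1) it would
separate the two nodes unless their input states match (`Loc.match_moving`).  In the same way the
set of resting nodes is closed under passing to the tails of the inputs (`Loc.R_closed`).
(4) On the resting nodes the forcings `b(y)` fill the polydiagonal of the relation `matching input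
states`, and they lie in the image of the polydiagonal of `equal nodes` under the derivative; a
dimension count gives that equal resting nodes have matching input states (`Loc.D_eq_Kk`).
(5) So the relation `equal nodes` on the open set is balanced; then the equalities extend to all
times by uniqueness (`Loc.sync_all`), and the relation is the synchrony pattern of the orbit. -/

open Set

namespace Pool.Agent.Results.MP_e1010f_an.RigidSynchrony

open H340Sync H340Sync.Network

/-- Rigidity in the literal wording of the problem (all admissible `C^1` vector fields `g` with
`|g - f| < ε` and `|Dg - Df| < ε`) implies the hypothesis `Rigid` of the theorem. -/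
theorem Rigid.of_literal {N : Network} {V : N.NT → Type} [∀ θ, NormedAddCommGroup (V θ)]
    [∀ θ, NormedSpace ℝ (V θ)] {f : N.State V → N.State V} {x : ℝ → N.State V} {T : ℝ}
    (hf : ContDiff ℝ 1 f) (hadm : Admissible f)
    (h : ∃ ε > 0, ∃ δ > 0, ∀ g : N.State V → N.State V, ContDiff ℝ 1 g → Admissible g →
      (∀ u, ‖g u - f u‖ < ε) → (∀ u, ‖fderiv ℝ g u - fderiv ℝ f u‖ < ε) →
      ∀ (z : ℝ → N.State V) (S : ℝ), IsPeriodicOrbit g z S → |S - T| < δ →
        (∀ t ∈ Icc (0 : ℝ) T, ‖z t - x t‖ < δ) →
        ∀ θ (c d : N.Node θ), syncPattern x θ c d → syncPattern z θ c d) : Rigid f x T := by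
  obtain ⟨ε, hε, δ, hδ, h⟩ := h
  refine ⟨ε, hε, δ, hδ, fun p hp1 hp2 hp3 hp4 z S hz hS hzx => ?_⟩
  refine h (fun u => f u + p u) (hf.add hp1) (hadm.add hp2.adm) (fun u => ?_) (fun u => ?_)
    z S hz hS hzx
  · rw [add_sub_cancel_left]
    exact hp3 u
  · have h1 : fderiv ℝ (fun u => f u + p u) u = fderiv ℝ f u + fderiv ℝ p u :=
      fderiv_fun_add (hf.differentiable one_ne_zero u) (hp1.differentiable one_ne_zero u)
    rw [h1, add_sub_cancel_left]
    exact hp4 u

/-- **The rigid synchrony conjecture.**  Let `f` be an admissible `C^1` vector field of a network
and let `x` be a hyperbolic periodic orbit of `f` with period `T` (nontrivial finite dimensional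
state spaces).  If the synchrony pattern of `x` is rigid, then it is balanced. -/
theorem result (N : Network) (V : N.NT → Type) [∀ θ, NormedAddCommGroup (V θ)]
    [∀ θ, NormedSpace ℝ (V θ)] [∀ θ, FiniteDimensional ℝ (V θ)] [∀ θ, Nontrivial (V θ)]
    (f : N.State V → N.State V) (hf : ContDiff ℝ 1 f) (hadm : Admissible f)
    (x : ℝ → N.State V) (T : ℝ) (hx : IsPeriodicOrbit f x T) (hh : IsHyperbolic f x T)
    (hrig : Rigid f x T) : Balanced (syncPattern x) :=
  core hf hadm hx hh hrig

end Pool.Agent.Results.MP_e1010f_an.RigidSynchrony
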